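import Pool.Agent.TH639.CK.Count

/-!
# The average order of vanishing in the Kummer extensions by the constant multiples of a function

Let `K` be the function field of a curve over the field `k` with `q` elements, `E` an elliptic curve
over `K`, `f` in `K` any function (of arbitrary degree), `N = ℓ ^ n` a power of a prime which divides `q - 1`, and
`L_u = K((u f)^(1/N))` for the `q - 1` constants `u`. The `L`-functions of `E` over the fields `L_u`
have degrees which grow like `N`. Here it is shown that their orders of vanishing at `1/q` are small ON AVERAGE: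

`(1 / (q - 1)) ∑_u (ord L(E/L_u) - ord L(E/K)) ≤ (1 - 1/ℓ) ∑_{m = 1}^n M_m`,

where `M_m` is the multiplicity of the zero `1` of `L(T, E/K)` modulo `ℓ` plus those of the Euler factors of `E`
at the places at which the valuation of `f` is not divisible by `ℓ ^ m`. So the average grows at most
like `n = log N / log ℓ`. Since the rank is at most the order (Tate), this bounds the average rank,
and if the conjecture of Birch and Swinnerton-Dyer holds for `E` over `K`, then the average of the defects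
`ord L(E/L_u) - rank E(L_u)` is at most `(1 - 1/ℓ) ∑ M_m`.

The hand-in `ConstantTwistsKummer` shows that the order does not change at all outside a set of `u`, for which
it gives no bound (and which can be large or everything if some `M_m` exceeds `ℓ - 1`).
-/

set_option autoImplicit false
set_option linter.all false
set_option maxHeartbeats 4000000

open Polynomial FF Module NumberField Pool.Agent.W343.BSD Pool.Agent.W313.Gr Pool.Agent.TH639.CK

namespace Pool.Agent.Results.MP_48b749_nt.AverageDefect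

/-- The multiplicity of the zero one of the reduction of `P` modulo `ℓ`. -/
noncomputable def multOne (ℓ : ℕ) (P : ℤ[X]) : ℕ :=
  (P.map (Int.castRingHom (ZMod ℓ))).rootMultiplicity 1

section defs

variable {k K : Type} [Field k] [Field K] [Algebra k K]

/-- The reduction at `v` is additive. -/
def IsAdditive (v : FF.Place k K) (a b : K) : Prop := condExp v a b = 2

/-- The number `M_m`: the multiplicity of the zero one of the reduction of `P` modulo `ℓ`, plus those of
the reductions of the Euler factors of `E` at the places at which the valuation of `f` is not divisible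
by `ℓ ^ m`. -/
noncomputable def bound (ℓ m : ℕ) (P : ℤ[X]) (f a b : K) : ℕ :=
  multOne ℓ P + ∑ᶠ (v : FF.Place k K) (_ : ¬ ((ℓ ^ m : ℕ) : ℤ) ∣ v.ord f),
    multOne ℓ (S.locFactor v a b)

/-- `L` is the extension of degree `N` of `K` generated by an `N`-th root of `g`, and it is the function
field of a curve over `k`. -/
structure IsKummer (N : ℕ) (g : K) (L : Type) [Field L] [Algebra k L] [Algebra K L] : Prop where
  curveField : IsCurveField k L
  degree : finrank K L = N
  root : ∃ y : L, y ^ N = algebraMap K L g ∧ IntermediateField.adjoin K {y} = ⊤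

/-- The Artin formalism: the `L`-function of `y ^ 2 = x ^ 3 + a x + b` over `L` is the product of the
`L`-functions over `K` of the twists by the characters of `χ ^ j` and `g`, for `j = 0` the `L`-function
over `K`. -/
def ArtinFormula {F : Type} [Field F] [NumberField F] (χ : MulChar k (𝓞 F)) (N : ℕ) (g a b : K)
    (L : Type) [Field L] [Algebra k L] [Algebra K L] : Prop :=
  PowerSeries.map (algebraMap ℤ (𝓞 F)) (S.Lfun k (algebraMap K L a) (algebraMap K L b)) =
    PowerSeries.map (algebraMap ℤ (𝓞 F)) (S.Lfun k a b) *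
      ∏ j ∈ Finset.Ico 1 N, twistL (χ ^ j) g a b

/-- The rank of `y ^ 2 = x ^ 3 + a x + b` over `K` is the order of the zero of its `L`-function at
`T = 1 / q`. -/
def RankIsOrder (k : Type) {K : Type} [Field k] [Field K] [Algebra k K] (a b : K) : Prop :=
  ∃ r : ℕ, HasOrder k a b r ∧ rank a b = r

/-- The rank of `y ^ 2 = x ^ 3 + a x + b` over `K` is at most the order of the zero of its `L`-function
at `T = 1 / q`. -/
def RankLeOrder (k : Type) {K : Type} [Field k] [Field K] [Algebra k K] (a b : K) : Prop :=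
  ∀ r : ℕ, HasOrder k a b r → rank a b ≤ r

/-- The rank of `y ^ 2 = x ^ 3 + a x + b` over `K` as a natural number (`0` if it is infinite). -/
noncomputable def natRank {K : Type} [Field K] (a b : K) : ℕ := Cardinal.toNat (rank a b)

end defs

section proof

variable {k K : Type} [Field k] [Finite k] [Field K] [Algebra k K] [FF.IsFF k K]

open Pool.Agent.TH639.SN (exists_poly)

/-- the order in one extension -/
theorem order_ext {ℓ n : ℕ} (hℓ : ℓ.Prime) {F : Type} [Field F] [NumberField F]
    {χ : MulChar k (𝓞 F)} {a b : K} (hE : 4 * a ^ 3 + 27 * b ^ 2 ≠ 0) {P : ℤ[X]}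
    (hP : S.Lfun k a b = (P : PowerSeries ℤ)) {f : K} (hf : f ≠ 0) {Q : ℕ → Polynomial (𝓞 F)}
    (hQ : ∀ j ∈ Finset.Ico 1 (ℓ ^ n), twistL (χ ^ j) f a b = (Q j : PowerSeries (𝓞 F)))
    {L : Type} [Field L] [Algebra k L] [Algebra K L] (u : kˣ)
    (hA : ArtinFormula χ (ℓ ^ n) (algebraMap k K u * f) a b L) {r : ℕ}
    (hr : HasOrder k a b r) :
    HasOrder k (algebraMap K L a) (algebraMap K L b)
      (r + ∑ j ∈ Finset.Ico 1 (ℓ ^ n), ((Q j).map (algebraMap (𝓞 F) F)).rootMultiplicity
          (algebraMap (𝓞 F) F ((χ ^ j) (u : k)) * (Nat.card k : F)⁻¹)) := by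
  classical
  set φ := algebraMap (𝓞 F) F with hφd
  have hφ : Function.Injective φ := RingOfIntegers.coe_injective
  have hq0 : (Nat.card k : F) ≠ 0 := by
    have : 0 < Nat.card k := Nat.card_pos
    exact_mod_cast this.ne'
  -- the polynomial over the ring of integers
  have hscale : ∀ j ∈ Finset.Ico 1 (ℓ ^ n), twistL (χ ^ j) (algebraMap k K u * f) a b =
      (((Q j).comp (C ((χ ^ j) (u : k)) * X) : Polynomial (𝓞 F)) : PowerSeries (𝓞 F)) := by
    intro j hj
    rw [twistL_const (χ ^ j) hf u.ne_zero, hQ j hj]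
    ext i
    rw [PowerSeries.coeff_rescale, Polynomial.coeff_coe, Polynomial.coeff_coe,
      Polynomial.comp_C_mul_X_coeff, mul_comm]
  have hA' := hA
  unfold ArtinFormula at hA'
  rw [hP, ← Polynomial.polynomial_map_coe, Finset.prod_congr rfl hscale] at hA'
  have hA2 : PowerSeries.map (algebraMap ℤ (𝓞 F))
      (S.Lfun k (algebraMap K L a) (algebraMap K L b)) =
      ((P.map (algebraMap ℤ (𝓞 F)) * ∏ j ∈ Finset.Ico 1 (ℓ ^ n),
        (Q j).comp (C ((χ ^ j) (u : k)) * X) : Polynomial (𝓞 F)) : PowerSeries (𝓞 F)) := by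
    rw [hA', Polynomial.coe_mul, coe_prod']
  have hZ : Function.Injective (algebraMap ℤ (𝓞 F)) := RingHom.injective_int _
  obtain ⟨PL, hPL, hPLm⟩ := exists_poly hZ hA2
  obtain ⟨P', hP', hr'⟩ := hr
  have hPP : P' = P := Polynomial.coe_injective ℤ (by rw [← hP', hP])
  subst hPP
  refine ⟨PL, hPL.symm, ?_⟩
  -- multiplicities over `F`
  have hm : ∀ G : ℤ[X], (G.map (Int.castRingHom ℚ)).rootMultiplicity ((Nat.card k : ℚ)⁻¹) =
      ((G.map (algebraMap ℤ (𝓞 F))).map φ).rootMultiplicity ((Nat.card k : F)⁻¹) := by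
    intro G
    have h1 := Polynomial.eq_rootMultiplicity_map (p := G.map (Int.castRingHom ℚ))
      (algebraMap ℚ F).injective ((Nat.card k : ℚ)⁻¹)
    rw [h1, map_inv₀, map_natCast, Polynomial.map_map, Polynomial.map_map]
    congr 2
    exact RingHom.ext_int _ _
  rw [hm, hPLm, Polynomial.map_mul, Polynomial.map_prod]
  have hP0 : ((P'.map (algebraMap ℤ (𝓞 F))).map φ) ≠ 0 := by
    rw [Polynomial.map_ne_zero_iff hφ, Polynomial.map_ne_zero_iff hZ]
    rintro rfl
    have hu := unit_coeff (k := k) hE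
    rw [hP', Polynomial.coe_zero, map_zero] at hu
    exact not_isUnit_zero hu
  have hc0 : ∀ j : ℕ, φ ((χ ^ j) (u : k)) ≠ 0 := by
    intro j
    have h1 : (χ ^ j) (u : k) * (χ ^ j) ((u⁻¹ : kˣ) : k) = 1 := by
      rw [← map_mul, ← Units.val_mul, mul_inv_cancel, Units.val_one, map_one]
    exact (map_ne_zero_iff φ hφ).2 (left_ne_zero_of_mul_eq_one h1)
  have hcomp : ∀ j, ((Q j).comp (C ((χ ^ j) (u : k)) * X)).map φ =
      ((Q j).map φ).comp (C (φ ((χ ^ j) (u : k))) * X + C 0) := by
    intro j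
    rw [Polynomial.map_comp, Polynomial.map_mul, Polynomial.map_C, Polynomial.map_X, C_0, add_zero]
  have hQ0 : ∀ j ∈ Finset.Ico 1 (ℓ ^ n), (((Q j).comp (C ((χ ^ j) (u : k)) * X)).map φ) ≠ 0 := by
    intro j hj h
    rw [Polynomial.map_eq_zero_iff hφ] at h
    apply twistL_ne (χ ^ j) (algebraMap k K u * f) a b
    rw [hscale j hj, h, Polynomial.coe_zero]
  rw [rm_mul _ hP0 (Finset.prod_ne_zero_iff.2 hQ0), rm_prod _ _ _ hQ0, ← hm, hr']
  congr 1
  refine Finset.sum_congr rfl fun j _ => ?_
  rw [hcomp, rootMultiplicity_comp_C_mul_X_add_C _ _ _ _ (hc0 j).isUnit, add_zero]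

theorem finsum_eq {ℓ m : ℕ} {P : ℤ[X]} {f a b : K} (hf : f ≠ 0) (B : Finset (FF.Place k K))
    (hB : ∀ v, v ∈ B ↔ ¬ ((ℓ ^ m : ℕ) : ℤ) ∣ v.ord f) : bound (k := k) ℓ m P f a b =
      Pool.Agent.TH639.SG.muL ℓ P +
        ∑ v ∈ B, Pool.Agent.TH639.SG.muL ℓ (S.locFactor v a b) := by
  classical
  unfold bound
  congr 1
  have h1 : ∀ v : FF.Place k K, (∑ᶠ (_ : ¬ ((ℓ ^ m : ℕ) : ℤ) ∣ v.ord f),
      multOne ℓ (S.locFactor v a b)) = ∑ᶠ (_ : v ∈ B), multOne ℓ (S.locFactor v a b) := by
    intro v
    rw [finsum_eq_if, finsum_eq_if]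
    simp only [hB v]
  rw [finsum_congr h1, finsum_mem_finset_eq_sum]
  rfl

end proof

/-- Let `K` be the function field of a curve over the field `k` with `q` elements, of characteristic at
least `5`, and `E : y ^ 2 = x ^ 3 + a x + b` an elliptic curve over `K` with `L(T, E/K) = P(T)` and with
a zero of order `r` of `L(T, E/K)` at `T = 1 / q`. Let `N = ℓ ^ n`, `n ≥ 1`, be a power of a prime which divides
`q - 1`, `χ` a character of `k` of order `N` with values in the ring of integers of a number field, and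
let `f ≠ 0` in `K` be such that the twists of `L(T, E/K)` by the characters of `χ ^ j` and `f`, `0 < j < N`, are
polynomials (this holds if `j_E` is not constant, Grothendieck).

There are numbers `s u`, `u` in the unit group of `k`, with
`ℓ ∑_u s u ≤ (q - 1) (ℓ - 1) ∑ M_m`, the sum over `1 ≤ m ≤ n`, such that for every `u` and every extension `L` of
`K` generated by an `N`-th root of `u f`, of degree `N` and with the field of constants `k`, for which
we use the Artin formalism, the `L`-function of `E` over `L` has a zero of order `r + s u` at `1 / q`.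

Moreover, if we choose such a field `L u` for every `u`, and if the rank is at most the order over these
fields (Tate's inequality), then the sum over `u` of the ranks over `L u` satisfies
`ℓ ∑_u rank E(L u) ≤ (q - 1) (ℓ r + (ℓ - 1) ∑ M_m)`; and if the rank of `E(K)` is `r`, then the sum over `u` of the
defects `ord L(T, E/L u) - rank E(L u)` satisfies `ℓ ∑_u defect ≤ (q - 1) (ℓ - 1) ∑ M_m`. -/
theorem result (k K : Type) [Field k] [Finite k] [Field K] [Algebra k K] (h6 : (6 : k) ≠ 0)
    (hK : IsCurveField k K) (ℓ n : ℕ) (hℓ : ℓ.Prime) (hn : n ≠ 0) (F : Type) [Field F]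
    [NumberField F] (χ : MulChar k (𝓞 F))
    (hχ : orderOf χ = ℓ ^ n) (a b : K) (hE : 4 * a ^ 3 + 27 * b ^ 2 ≠ 0) (P : ℤ[X])
    (hP : S.Lfun k a b = (P : PowerSeries ℤ)) (r : ℕ) (hr : HasOrder k a b r) (f : K) (hf : f ≠ 0)
    (hpoly : ∀ j ∈ Finset.Ico 1 (ℓ ^ n), ∃ Q : (𝓞 F)[X],
      twistL (χ ^ j) f a b = (Q : PowerSeries (𝓞 F))) :
    ∃ s : kˣ → ℕ,
      ℓ * ∑ᶠ u : kˣ, s u ≤ (Nat.card k - 1) * ((ℓ - 1) * ∑ m ∈ Finset.Icc 1 n,
        bound (k := k) ℓ m P f a b) ∧
      (∀ (u : kˣ) (L : Type) [Field L] [Algebra k L] [Algebra K L] [IsScalarTower k K L],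
        IsKummer (k := k) (ℓ ^ n) (algebraMap k K u * f) L →
        ArtinFormula χ (ℓ ^ n) (algebraMap k K u * f) a b L →
        HasOrder k (algebraMap K L a) (algebraMap K L b) (r + s u)) ∧
      ∀ (L : kˣ → Type) [∀ u, Field (L u)] [∀ u, Algebra k (L u)] [∀ u, Algebra K (L u)]
        [∀ u, IsScalarTower k K (L u)],
        (∀ u : kˣ, IsKummer (k := k) (ℓ ^ n) (algebraMap k K u * f) (L u)) →
        (∀ u : kˣ, ArtinFormula χ (ℓ ^ n) (algebraMap k K u * f) a b (L u)) →
        (∀ u : kˣ, RankLeOrder k (algebraMap K (L u) a) (algebraMap K (L u) b)) →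
        (∀ u : kˣ, rank (algebraMap K (L u) a) (algebraMap K (L u) b) ≤ ((r + s u : ℕ) : Cardinal)) ∧
        ℓ * ∑ᶠ u : kˣ, natRank (algebraMap K (L u) a) (algebraMap K (L u) b) ≤
          (Nat.card k - 1) * (ℓ * r + (ℓ - 1) * ∑ m ∈ Finset.Icc 1 n,
            bound (k := k) ℓ m P f a b) ∧
        (rank a b = r →
          ℓ * ∑ᶠ u : kˣ, ((r + s u) - natRank (algebraMap K (L u) a) (algebraMap K (L u) b)) ≤
          (Nat.card k - 1) * ((ℓ - 1) * ∑ m ∈ Finset.Icc 1 n, bound (k := k) ℓ m P f a b)) := by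
  classical
  have hFF : FF.IsFF k K := ⟨hK.essFiniteType, hK.trdeg_eq_one⟩
  have := Fintype.ofFinite kˣ
  have hfin : ∀ m : ℕ, {v : FF.Place k K | ¬ ((ℓ ^ m : ℕ) : ℤ) ∣ v.ord f}.Finite := by
    intro m
    refine (Pool.Agent.H525R3.FFp.finite_support (k := k) f).subset ?_
    intro v hv h0
    apply hv
    rw [h0]
    exact dvd_zero _
  set B : ℕ → Finset (FF.Place k K) := fun m => (hfin m).toFinset with hBd
  have hB : ∀ m, ∀ v, v ∈ B m ↔ ¬ ((ℓ ^ m : ℕ) : ℤ) ∣ v.ord f := fun m v => by
    rw [hBd, Set.Finite.mem_toFinset]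
    rfl
  have hbd : ∀ m, bound (k := k) ℓ m P f a b = Pool.Agent.TH639.SG.muL ℓ P +
        ∑ v ∈ B m, Pool.Agent.TH639.SG.muL ℓ (S.locFactor v a b) :=
    fun m => finsum_eq hf (B m) (hB m)
  choose! Q hQ using hpoly
  set s : kˣ → ℕ := fun u => ∑ j ∈ Finset.Ico 1 (ℓ ^ n),
    ((Q j).map (algebraMap (𝓞 F) F)).rootMultiplicity
      (algebraMap (𝓞 F) F ((χ ^ j) (u : k)) * (Nat.card k : F)⁻¹) with hs
  have hmain := main_sum hℓ hn hχ hE hP hf B hB hQ
  rw [Finset.sum_comm] at hmain
  have hsum : ℓ * ∑ u : kˣ, s u ≤ (Nat.card k - 1) * ((ℓ - 1) * ∑ m ∈ Finset.Icc 1 n,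
      bound (k := k) ℓ m P f a b) := by
    simp only [hbd]
    exact hmain
  have hord : ∀ (u : kˣ) (L : Type) [Field L] [Algebra k L] [Algebra K L] [IsScalarTower k K L],
      IsKummer (k := k) (ℓ ^ n) (algebraMap k K u * f) L →
      ArtinFormula χ (ℓ ^ n) (algebraMap k K u * f) a b L →
      HasOrder k (algebraMap K L a) (algebraMap K L b) (r + s u) := by
    intro u L _ _ _ _ _ hA
    exact order_ext hℓ hE hP hf hQ u hA hr
  have hcard : Fintype.card kˣ = Nat.card k - 1 := by
    rw [← Nat.card_eq_fintype_card, Nat.card_units]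
  refine ⟨s, by rwa [finsum_eq_sum_of_fintype], hord, ?_⟩
  intro L _ _ _ _ hKum hA hle
  rw [finsum_eq_sum_of_fintype, finsum_eq_sum_of_fintype]
  have h0 : ∀ u : kˣ, rank (algebraMap K (L u) a) (algebraMap K (L u) b) ≤
      ((r + s u : ℕ) : Cardinal) := fun u => hle u _ (hord u (L u) (hKum u) (hA u))
  have h1 : ∀ u : kˣ, natRank (algebraMap K (L u) a) (algebraMap K (L u) b) ≤ r + s u :=
    fun u => by
      have := Cardinal.toNat_le_toNat (h0 u) (Cardinal.natCast_lt_aleph0)
      rwa [Cardinal.toNat_natCast] at this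
  refine ⟨h0, ?_, ?_⟩
  · calc ℓ * ∑ u : kˣ, natRank (algebraMap K (L u) a) (algebraMap K (L u) b)
        ≤ ℓ * ∑ u : kˣ, (r + s u) := Nat.mul_le_mul_left _ (Finset.sum_le_sum fun u _ => h1 u)
      _ = (Nat.card k - 1) * (ℓ * r) + ℓ * ∑ u : kˣ, s u := by
        rw [Finset.sum_add_distrib, Finset.sum_const, Finset.card_univ, hcard, smul_eq_mul]
        ring
      _ ≤ (Nat.card k - 1) * (ℓ * r) + (Nat.card k - 1) * ((ℓ - 1) * ∑ m ∈ Finset.Icc 1 n,
            bound (k := k) ℓ m P f a b) := Nat.add_le_add_left hsum _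
      _ = _ := by rw [Nat.mul_add]
  · intro hrk
    refine le_trans (Nat.mul_le_mul_left _ (Finset.sum_le_sum fun u _ => ?_)) hsum
    have h2 : rank a b ≤ rank (algebraMap K (L u) a) (algebraMap K (L u) b) := rank_mono a b
    have h3 : r ≤ natRank (algebraMap K (L u) a) (algebraMap K (L u) b) := by
      have h4 := Cardinal.toNat_le_toNat h2 ((h0 u).trans_lt Cardinal.natCast_lt_aleph0)
      rwa [hrk, Cardinal.toNat_natCast] at h4
    omega

end Pool.Agent.Results.MP_48b749_nt.AverageDefect
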