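import Pool.Agent.Q7.PT.Avg

/-!
# The quadratic twists of `y ^ 2 = f(x) - t`, `f` cubic, by one third of all primes, over all constant
# extensions of degree prime to three

`k` is a finite field with `q` elements of characteristic at least five and
`f = x ^ 3 + a x ^ 2 + b x + c` is a cubic polynomial over `k` with `a ^ 2 ≠ 3 b`. For a squarefree
polynomial `D` over `k` let `E_D` be the elliptic curve `D(t) y ^ 2 = f(x) - t` over `K = k(t)`, with
non-constant `j`-invariant. Its conductor grows with the degree of `D`.

For one third of all primes `P` of `k[t]`, and for all squarefree products `D` of such primes and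
constants, `L(T, E_D)` has no zero `T` with `(q T) ^ e = 1`, for all `e` prime to three; so the
conjecture of Birch and Swinnerton-Dyer holds for `E_D` over `k_e(t)` for all the extensions `k_e` of `k`
of degree `e` prime to three at once, with rank zero and a finite Tate-Shafarevich group. For all
squarefree `D` the sum of the orders of vanishing for the two constant twists `E_D` and `E_{g D}` is
bounded by the other prime factors of `D`, and the average order over all primes of odd degree is at most
`2 / 3`.
-/

set_option autoImplicit false
set_option maxHeartbeats 1000000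

open Polynomial

namespace Pool.Agent.Results.MP_48b749_nt.PrimeTwistsOneThird

/-- The closed points of the affine line over the field `F`: monic irreducible polynomials. -/
abbrev ClosedPt (F : Type) [Field F] : Type := {P : F[X] // P.Monic ∧ Irreducible P}

section generic

variable {F : Type} [Field F]

open Classical in
/-- The quadratic character of the field `F[x] / (Q)` at the class of `h`. -/
noncomputable def quadChar (h Q : F[X]) : ℤ :=
  if Q ∣ h then 0 else if ∃ s : F[X], Q ∣ h - s ^ 2 then 1 else -1

/-- The degree of the closed point `Q` of the line over a field `F` of degree `d`. -/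
noncomputable def ptDegree (d : ℕ) (Q : ClosedPt F) : ℕ := d * Q.1.natDegree

/-- The Euler factor `1 - χ T ^ n`, where `χ` is the value of the quadratic character of the residue
field of `Q` at `h`, and `n` is the degree of `Q`. -/
noncomputable def ptFactor (h : F[X]) (d : ℕ) (Q : ClosedPt F) : PowerSeries ℤ :=
  1 - PowerSeries.C (quadChar h Q.1) * PowerSeries.X ^ ptDegree d Q

end generic

/-- The Euler product: its coefficient of index `n` is that of the product of the factors of degree
at most `n`. -/
noncomputable def eulerProduct {ι : Type} (d : ι → ℕ) (f : ι → PowerSeries ℤ) : PowerSeries ℤ :=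
  PowerSeries.mk fun n => PowerSeries.coeff n (∏ᶠ (i : ι) (_ : d i ≤ n), f i)

section defs

variable {k : Type} [Field k]

/-- The residue field of the closed point `P` of the `t`-line. -/
def Res (P : ClosedPt k) : Type := AdjoinRoot P.1

noncomputable instance resField (P : ClosedPt k) : Field (Res P) :=
  @AdjoinRoot.instField k _ P.1 ⟨P.2.2⟩

/-- The value at `P` of a polynomial in `t`. -/
noncomputable def value (P : ClosedPt k) (g : k[X]) : Res P := AdjoinRoot.mk P.1 g

/-- The inclusion of the constants in the residue field. -/
noncomputable def constants (P : ClosedPt k) : k →+* Res P := AdjoinRoot.of P.1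

/-- The polynomial `D(t) (f(x) - t)` in `x` over the residue field of the closed point `P`. -/
noncomputable def fibre (f D : k[X]) (P : ClosedPt k) : (Res P)[X] :=
  C (value P D) * (f.map (constants P) - C (value P X))

/-- The closed points of the `(t, x)`-plane with `D(t) ≠ 0`: a closed point of the `t`-line and a
closed point of the `x`-line over its residue field. -/
structure PlanePt (D : k[X]) : Type where
  place : ClosedPt k
  ndvd : ¬ place.1 ∣ D
  point : ClosedPt (Res place)

/-- The degree of a closed point of the plane. -/
noncomputable def PlanePt.deg {D : k[X]} (z : PlanePt D) : ℕ :=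
  ptDegree z.place.1.natDegree z.point

/-- The Euler factor of a closed point of the plane. -/
noncomputable def PlanePt.factor {D : k[X]} (f : k[X]) (z : PlanePt D) : PowerSeries ℤ :=
  ptFactor (fibre f D z.place) z.place.1.natDegree z.point

/-- The `L`-function of the elliptic curve `D(t) y ^ 2 = f(x) - t` over `k(t)` in the variable
`T = q ^ (-s)`: the product of `1 - χ(z) T ^ deg z` over the closed points `z` of the plane with
`D(t) ≠ 0`, where `χ(z)` is the quadratic character of the residue field of `z` at
`D(t) (f(x) - t)`. The product over the points `z` above a place `P` of the `t`-line is the inverse of the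
local factor `1 - a T ^ n + q ^ n T ^ (2 n)`, or `1 - a T ^ n` for a nodal fibre, `n = deg P`; there
are no factors at the zeros of `D` and at infinity, where the reduction is additive. -/
noncomputable def Lfun (f D : k[X]) : PowerSeries ℤ :=
  eulerProduct (fun z : PlanePt D => z.deg) (fun z => z.factor f)

/-- `L(T) = (1 - q T) ^ m G(T)` with an integral polynomial `G`: the function vanishes to order at
least `m` at `T = 1 / q`. -/
def VanishesTo (f D : k[X]) (m : ℕ) : Prop :=
  ∃ G : ℤ[X], Lfun f D = (((1 - C (Nat.card k : ℤ) * X) ^ m * G : ℤ[X]) : PowerSeries ℤ)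

/-- `L(T) = (1 - q ζ T) G(T)` with a complex polynomial `G` and a root of unity `ζ` with `ζ ^ e = 1`: the
function has a zero `T` with `(q T) ^ e = 1`. -/
def HasZero (f D : k[X]) (e : ℕ) : Prop :=
  ∃ ζ : ℂ, ζ ^ e = 1 ∧ ∃ G : ℂ[X], PowerSeries.map (Int.castRingHom ℂ) (Lfun f D) =
    (((1 - C ((Nat.card k : ℂ) * ζ) * X) * G : ℂ[X]) : PowerSeries ℂ)

open Classical in
/-- The monic irreducible factors of a polynomial. -/
noncomputable def primes (g : k[X]) : Finset k[X] :=
  (UniqueFactorizationMonoid.normalizedFactors g).toFinset

/-- The greatest power of two dividing `n`. -/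
def twoPart (n : ℕ) : ℕ := 2 ^ padicValNat 2 n

/-- The polynomial `P(f(x))` is irreducible: the prime `P` is inert in `k(x)`, `t = f(x)`. -/
def IsInert (f P : k[X]) : Prop := Irreducible (P.comp f)

variable (k) in
/-- The primes of degree `N`. -/
def primesOfDegree (N : ℕ) : Set (ClosedPt k) := {P | P.1.natDegree = N}

/-- The inert primes of degree `N`. -/
def inertOfDegree (f : k[X]) (N : ℕ) : Set (ClosedPt k) := {P | P.1.natDegree = N ∧ IsInert f P.1}

/-- The sum of the `q ^ d` over the proper divisors `d` of `N`. -/
def properSum (q N : ℕ) : ℤ := ∑ d ∈ N.properDivisors, (q : ℤ) ^ d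

/-- The characteristic of `k` is not two or three, and `f = x ^ 3 + a x ^ 2 + b x + c` with
`a ^ 2 ≠ 3 b`. -/
structure IsAdmissible (f : k[X]) : Prop where
  two_ne : (2 : k) ≠ 0
  three_ne : (3 : k) ≠ 0
  monic : f.Monic
  degree : f.natDegree = 3
  generic : f.coeff 2 ^ 2 ≠ 3 * f.coeff 1

/-- One third of the primes are inert: their number `n` in degree `N` satisfies
`|3 N n - q ^ N| ≤ 3 ∑ q ^ d + 1`, and the number `n` of all primes of degree `N` satisfies
`q ^ N - ∑ q ^ d ≤ N n ≤ q ^ N`, where `d` runs through the proper divisors of `N`. -/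
def OneThirdInert (f : k[X]) : Prop :=
  ∀ N : ℕ, 0 < N →
    |3 * ((N : ℤ) * (inertOfDegree f N).ncard) - (Nat.card k : ℤ) ^ N| ≤
      3 * properSum (Nat.card k) N + 1 ∧
    (Nat.card k : ℤ) ^ N - properSum (Nat.card k) N ≤ (N : ℤ) * (primesOfDegree k N).ncard ∧
    (N : ℤ) * (primesOfDegree k N).ncard ≤ (Nat.card k : ℤ) ^ N

/-- If all prime factors of `D` are inert there are no zeros with `(q T) ^ e = 1`, for all `e` prime to
three. -/
def Nonvanishing (f : k[X]) : Prop :=
  ∀ D : k[X], Squarefree D → (∀ P ∈ primes D, IsInert f P) →
    ∀ e : ℕ, 0 < e → e.Coprime 3 → ¬ HasZero f D e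

open Classical in
/-- The bound for the sum of the orders for the two constant twists. -/
def SumBound (f : k[X]) : Prop :=
  ∀ D : k[X], Squarefree D → ∀ g : k, ¬ IsSquare g → ∀ m m' : ℕ,
    VanishesTo f D m → VanishesTo f (C g * D) m' →
      m + m' ≤ 2 * ∑ P ∈ (primes D).filter (fun P => ¬ IsInert f P), twoPart P.natDegree

/-- The bound for the average of the orders over the primes of degree `N`. -/
def AverageBound (f : k[X]) : Prop :=
  ∀ N : ℕ, 0 < N → ∀ g : k, ¬ IsSquare g → ∀ r r' : ClosedPt k → ℕ,
    (∀ P ∈ primesOfDegree k N, VanishesTo f P.1 (r P) ∧ VanishesTo f (C g * P.1) (r' P)) →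
      3 * ((N : ℤ) * ((∑ᶠ P ∈ primesOfDegree k N, (r P + r' P) : ℕ) : ℤ)) ≤
        twoPart N * (4 * (Nat.card k : ℤ) ^ N + 6 * properSum (Nat.card k) N + 2)

/-- the equivalence of the two descriptions of the points of the plane -/
noncomputable def planeEquiv (D : k[X]) :
    (Σ P : {P : Pool.Agent.W313.Hyp.MI k // ¬ P.1 ∣ D},
      Pool.Agent.W313.Hyp.MI (Pool.Agent.TH943.HJ.RF P.1)) ≃ PlanePt D where
  toFun z := ⟨z.1.1, z.1.2, z.2⟩
  invFun z := ⟨⟨z.place, z.ndvd⟩, z.point⟩
  left_inv _ := rfl
  right_inv _ := rfl

theorem Lfun_eq (f D : k[X]) : Lfun f D = Pool.Agent.TH943.HJ.LF f D := by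
  unfold Lfun Pool.Agent.TH943.HJ.LF eulerProduct Pool.Agent.W343.BSD.eulerProd
  ext n
  rw [PowerSeries.coeff_mk, PowerSeries.coeff_mk]
  congr 1
  exact (finprod_comp_equiv (planeEquiv D)
    (f := fun z : PlanePt D => ∏ᶠ (_ : z.deg ≤ n), z.factor f)).symm

end defs

/-- **The conjecture of Birch and Swinnerton-Dyer for the twists by one third of all primes, over all
constant extensions of degree prime to three.**

Let `k` be a finite field with `q` elements, of characteristic at least five, and
`f = x ^ 3 + a x ^ 2 + b x + c` a polynomial over `k` with `a ^ 2 ≠ 3 b`. For a squarefree polynomial `D`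
over `k` let `E_D` be the elliptic curve `D(t) y ^ 2 = f(x) - t` over `K = k(t)`. Its `j`-invariant is not
constant. The fibres over the two different zeros of the discriminant of `f(x) - t` are nodal if they are
not zeros of `D`; the reduction is additive at the zeros of `D` and at infinity, and good elsewhere. So
`Lfun f D` is `L(T, E_D)`, the inverse of the product of the local factors, a polynomial (of degree
`2 deg D` if `D` is prime to the discriminant). For an extension `k_e` of `k` of degree `e` the
`L`-function of `E_D` over `k_e(t)` is `∏ L(ζ T, E_D)`, as a function of `T ^ e`, the product over the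
numbers `ζ` with `ζ ^ e = 1`; it does not vanish at the central point `T ^ e = q ^ (-e)` if and only if
`L(T, E_D)` has no zero with `(q T) ^ e = 1`.

(1) The number of the primes `P` of `k[t]` of degree `N` for which `P(f(x))` is irreducible is
`q ^ N / (3 N)` up to `(∑ q ^ d + 1) / N`, the sum over the proper divisors `d` of `N`: one third of all
primes are inert.

(2) If all prime factors of the squarefree polynomial `D` are inert (`D` need not be monic), then
`L(T, E_D)` has no zero `T` with `(q T) ^ e = 1`, for ALL `e` prime to three. So, by the results quoted in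
the problem, the conjecture holds for `E_D` over `k_e(t)` for all these `e`: the rank and the order are
zero, the Tate-Shafarevich group is finite and its order is given by the formula. The groups
`E_D(k_e(t))` and their union over all `e` prime to three are torsion.

(3) For every squarefree `D`, and `g` in `k` not a square, the sum of the orders of vanishing of
`L(T, E_D)` and of `L(T, E_{g D})` at `T = 1 / q` is at most `2 ∑ 2 ^ v(deg P)`, the sum over the prime
factors of `D` which are not inert, `v` the 2-adic valuation.

(4) The sum over all primes `P` of degree `N` of the orders for `E_P` and for `E_{g P}` is at most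
`2 ^ v(N) (4 q ^ N + 6 ∑ q ^ d + 2) / (3 N)`. There are about `q ^ N / N` primes, so for odd `N` the average
of the orders of the `E_P` and the `E_{g P}` is at most `2 / 3 + o(1)`; by Tate's inequality this is also a
bound for the average rank, and for the average of the defect, the order minus the rank. -/
theorem result (k : Type) [Field k] [Finite k] (f : k[X]) (h : IsAdmissible f) :
    OneThirdInert f ∧ Nonvanishing f ∧ SumBound f ∧ AverageBound f := by
  have ho : Odd f.natDegree := by rw [h.degree]; decide
  have hone : OneThirdInert f := by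
    intro N hN
    have h1 := Pool.Agent.TH943.PT.inert_count h.two_ne h.three_ne h.monic h.degree h.generic hN
    rw [Nat.cast_mul] at h1
    exact ⟨h1, Pool.Agent.Q7.PT.count_all hN⟩
  refine ⟨hone, ?_, ?_, ?_⟩
  · rintro D hD hin e he hco ⟨ζ, hζ, G, hG⟩
    rw [Lfun_eq] at hG
    refine Pool.Agent.Q7.PT.no_zero (Pool.Agent.W343.BSD.card_odd h.two_ne) h.monic ho hD.ne_zero
      (fun P hP => ?_) (by rw [h.degree]; exact hco) hζ he.ne' G hG
    have h1 := (Pool.Agent.W313.Hyp.mem_facs hD.ne_zero P).1 hP
    exact hin P.1 ((Pool.Agent.TH943.HJ.mem_primes hD.ne_zero P.1).2 ⟨P.2.1, P.2.2, h1⟩)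
  · rintro D hD g hg m m' ⟨G1, h1⟩ ⟨G2, h2⟩
    rw [Lfun_eq] at h1 h2
    obtain ⟨G, hG⟩ := Pool.Agent.Q7.PT.combine h.two_ne hg f D m m' G1 G2 h1 h2
    have h3 := Pool.Agent.Q7.PT.order_le2 h.two_ne h.monic ho hD.ne_zero m m' G hG
    rw [h.degree] at h3
    exact h3
  · intro N hN g hg r r' hr
    have h1 := Pool.Agent.Q7.PT.sum_orders h.two_ne h.monic ho hg N r r'
      (fun P hP => by
        obtain ⟨G, hG⟩ := (hr P hP).1
        exact ⟨G, by rw [← Lfun_eq]; exact hG⟩)
      (fun P hP => by
        obtain ⟨G, hG⟩ := (hr P hP).2
        exact ⟨G, by rw [← Lfun_eq]; exact hG⟩)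
    rw [h.degree] at h1
    obtain ⟨h2, -, h3⟩ := hone N hN
    set S : ℕ := ∑ᶠ P ∈ primesOfDegree k N, (r P + r' P) with hS
    set t : ℕ := twoPart N with ht
    have h4 : (S : ℤ) + 2 * t * (inertOfDegree f N).ncard ≤ 2 * t * (primesOfDegree k N).ncard := by
      have h5 : S + 2 * t * (inertOfDegree f N).ncard ≤ 2 * t * (primesOfDegree k N).ncard := h1
      exact_mod_cast h5
    have h5 := (abs_le.1 h2).1
    have ht0 : (0 : ℤ) ≤ t := Int.natCast_nonneg _
    have hN0 : (0 : ℤ) ≤ N := Int.natCast_nonneg _
    have h6 := mul_le_mul_of_nonneg_left h4 hN0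
    have h7 := mul_le_mul_of_nonneg_left h3 ht0
    have h8 := mul_le_mul_of_nonneg_left h5 ht0
    nlinarith

end Pool.Agent.Results.MP_48b749_nt.PrimeTwistsOneThird
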