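import Pool.Agent.Q7.UC.Core

/-!
# A uniform bound for the orders of vanishing of the twists of an elliptic curve over all extensions of the
# constants of degree prime to `ℓ ^ 2 - 1`

Let `K` be the function field of a curve over the field `k` with `q` elements, `E : y ^ 2 = x ^ 3 + a x + b` an elliptic
curve over `K`, and `ℓ` a prime. We count the zeros of `L`-functions of the form `1 / (q ζ)`, where `ζ` is a root of unity
of order prime to `ℓ ^ 2 - 1` (`admissible`), with their multiplicities. By the Artin formalism the zeros with `ζ ^ e = 1`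
are the zeros at the central point of the `L`-function over `K k_e`, where `k_e` is the extension of `k` of degree `e`;
so we consider the central orders over all `K k_e`, `e` prime to `ℓ ^ 2 - 1` (odd or even if `ℓ = 2`, but prime to `3`;
`e = ℓ ^ n` is allowed), at once.

**Theorem.** Let `Z` be the number of the zeros of the reduction of `L(T, E)` modulo `ℓ` which are admissible roots of unity,
`Z ≤ deg L(T, E)`. Let `χ` be a character of order `ℓ ^ n > 1` of `k` and `f ≠ 0` in `K`. The
number of the admissible zeros of the `L`-function of `E` twisted by the character of the Kummer extension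
`K(f ^ (1 / ℓ ^ n))` is at most

`Z + ∑ w_v m(deg v)`,

the sum over the places `v` such that `ℓ ^ n` does not divide `v(f)` and the value `P_v(1)` of the Euler factor of `E`
(`#E(k_v)` for good, `0`, `2`, `1` for split, nonsplit, additive reduction) is divisible by `ℓ`; here `m(d)` is the
greatest divisor of `d` prime to `ℓ ^ 2 - 1`, and `w_v = 2` for good and `1` for bad reduction. For `ℓ = 2` this holds for
the `L`-function of the quadratic twists `E_D` themselves.

So if the Frobenius elements of the places `v` with `ℓ ^ n ∤ v(f)` have no fixed point in `E[ℓ]` the number is at most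
`Z`, which does not depend on `n`, `χ` and `f`, although the degrees of the `L`-functions tend to infinity with the degree
of `f`. For `ℓ = 2` and irreducible `x ^ 3 + a x + b` there are infinitely many such quadratic twists `E_D`: all
the `D` supported by the places which are inert in the cubic field.

The proof. Modulo a prime over `ℓ` the `L`-function of the twist is the product of `L(T, E)` and of the Euler factors
`P_v` of the ramified places. A zero `z` of `P_v` modulo `ℓ` gives the eigenvalue `z ^ (deg v)` of the Frobenius element on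
`E[ℓ]`, an element of the field with `ℓ ^ 2` elements, whose order divides `ℓ ^ 2 - 1`; so it is `1` if `z` is admissible.
-/

set_option autoImplicit false
set_option linter.all false
set_option maxHeartbeats 4000000

open Polynomial FF Module Pool.Agent.W343.BSD Pool.Agent.TH639.CK

namespace Pool.Agent.Results.MP_48b749_nt.TwistsOverConstantExtensions

/-- The ring of the algebraic integers. -/
abbrev AlgInt : Type := integralClosure ℤ ℂ

/-- `ζ` is a root of unity of order prime to `ℓ ^ 2 - 1`. -/
def IsAdmissibleRoot (ℓ : ℕ) {R : Type} [Monoid R] (ζ : R) : Prop :=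
  ∃ e : ℕ, 0 < e ∧ e.Coprime (ℓ ^ 2 - 1) ∧ ζ ^ e = 1

/-- `L(T)` is the product of the `1 - q ζ T`, `ζ ∈ s`, and of a polynomial over the ring of algebraic integers: it
has the zeros `1 / (q ζ)`, with their multiplicities. -/
def HasZeros (q : ℕ) (L : PowerSeries AlgInt) (s : Multiset AlgInt) : Prop :=
  ∃ G : AlgInt[X], L =
    (((s.map fun ζ => 1 - C ((q : AlgInt) * ζ) * X).prod * G : AlgInt[X]) : PowerSeries AlgInt)

open Classical in
/-- The number of the zeros, with their multiplicities, of the reduction of `P` modulo `ℓ` which are roots of unity of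
order prime to `ℓ ^ 2 - 1`. -/
noncomputable def zeroNumber (ℓ : ℕ) [Fact ℓ.Prime] (P : ℤ[X]) : ℕ :=
  ((P.map (Int.castRingHom (AlgebraicClosure (ZMod ℓ)))).roots.filter
    fun z => IsAdmissibleRoot ℓ z).card

/-- The greatest divisor of `d` prime to `ℓ ^ 2 - 1`. -/
def primePart (ℓ d : ℕ) : ℕ := d / Nat.gcd d ((ℓ ^ 2 - 1) ^ d)

section defs

variable {k K : Type} [Field k] [Field K] [Algebra k K]

/-- The value at `1` of the Euler factor of `E` at `v` is divisible by `ℓ`. -/
def IsCritical (ℓ : ℕ) (v : FF.Place k K) (a b : K) : Prop :=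
  (ℓ : ℤ) ∣ (S.locFactor v a b).eval 1

open Classical in
/-- The number `m(deg v)`, twice if the reduction is good. -/
noncomputable def weight (ℓ : ℕ) (v : FF.Place k K) (a b : K) : ℕ :=
  (if v.ord (minDisc v a b) = 0 then 2 else 1) * primePart ℓ (S.deg v)

end defs

section proof

variable {k K : Type} [Field k] [Finite k] [Field K] [Algebra k K] [FF.IsFF k K]

open Classical in
theorem sum_le {ℓ : ℕ} [Fact ℓ.Prime] (hq : ((Nat.card k : ℕ) : ZMod ℓ) = 1) (a b : K)
    (B : Finset (FF.Place k K)) (p : FF.Place k K → Prop) (hB : ∀ v, v ∈ B ↔ p v) :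
    ∑ v ∈ B, Q7.UC.zs ℓ (S.locFactor v a b) ≤
      ∑ᶠ (v : FF.Place k K) (_ : p v ∧ IsCritical ℓ v a b), weight ℓ v a b := by
  have h1 : (∑ᶠ (v : FF.Place k K) (_ : p v ∧ IsCritical ℓ v a b), weight ℓ v a b) =
      ∑ v ∈ B.filter (fun v => IsCritical ℓ v a b), weight ℓ v a b :=
    finsum_cond_eq_sum_of_cond_iff _ fun {v} _ => by
      rw [Finset.mem_filter, hB]
  rw [h1, Finset.sum_filter]
  refine Finset.sum_le_sum fun v _ => ?_
  split_ifs with h
  · exact Q7.UC.zs_loc_le hq v
  · exact (Q7.UC.zs_loc hq v h).le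

end proof

/-- **The bound for the twists over all extensions of the constants of degree prime to `ℓ ^ 2 - 1`.** -/
theorem result (k K : Type) [Field k] [Finite k] [Field K] [Algebra k K] (h6 : (6 : k) ≠ 0)
    (hK : IsCurveField k K) (a b : K) (hE : 4 * a ^ 3 + 27 * b ^ 2 ≠ 0) (P : ℤ[X])
    (hP : S.Lfun k a b = (P : PowerSeries ℤ)) (ℓ : ℕ) [Fact ℓ.Prime] :
    zeroNumber ℓ P ≤ P.natDegree ∧
    (∀ (n : ℕ), n ≠ 0 → ∀ χ : MulChar k AlgInt, orderOf χ = ℓ ^ n → ∀ f : K, f ≠ 0 →
      ∀ s : Multiset AlgInt, (∀ ζ ∈ s, IsAdmissibleRoot ℓ ζ) →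
        HasZeros (Nat.card k) (twistL χ f a b) s →
        s.card ≤ zeroNumber ℓ P + ∑ᶠ (v : FF.Place k K)
          (_ : ¬ ((ℓ ^ n : ℕ) : ℤ) ∣ v.ord f ∧ IsCritical ℓ v a b), weight ℓ v a b) ∧
    (ℓ = 2 → ∀ D : K, D ≠ 0 → ∀ s : Multiset AlgInt, (∀ ζ ∈ s, IsAdmissibleRoot 2 ζ) →
        HasZeros (Nat.card k)
          (PowerSeries.map (algebraMap ℤ AlgInt) (S.Lfun k (D ^ 2 * a) (D ^ 3 * b))) s →
        s.card ≤ zeroNumber ℓ P + ∑ᶠ (v : FF.Place k K)
          (_ : Odd (v.ord D) ∧ IsCritical ℓ v a b), weight ℓ v a b) := by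
  classical
  have hFF : FF.IsFF k K := ⟨hK.essFiniteType, hK.trdeg_eq_one⟩
  refine ⟨Q7.UC.zs_le P, ?_, ?_⟩
  · rintro n hn χ hχ f hf s hs ⟨G, hG⟩
    have hfin : {v : FF.Place k K | ¬ ((ℓ ^ n : ℕ) : ℤ) ∣ v.ord f}.Finite := by
      refine (Pool.Agent.H525R3.FFp.finite_support (k := k) f).subset ?_
      intro v hv h0
      apply hv
      rw [h0]
      exact dvd_zero _
    have hB : ∀ v, v ∈ hfin.toFinset ↔ ¬ ((ℓ ^ n : ℕ) : ℤ) ∣ v.ord f := fun v => by
      rw [Set.Finite.mem_toFinset]
      rfl
    refine (Q7.UC.bound hn hχ hE hP hf hfin.toFinset hB s hs G hG).trans ?_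
    exact Nat.add_le_add_left (sum_le (Q7.UC.card_mod hn hχ) a b _ _ hB) _
  · rintro rfl D hD s hs ⟨G, hG⟩
    have hfin : {v : FF.Place k K | Odd (v.ord D)}.Finite := by
      refine (Pool.Agent.H525R3.FFp.finite_support (k := k) D).subset ?_
      intro v hv h0
      have hv' : Odd (v.ord D) := hv
      rw [h0] at hv'
      exact absurd hv' (by decide)
    have hB : ∀ v, v ∈ hfin.toFinset ↔ Odd (v.ord D) := fun v => by
      rw [Set.Finite.mem_toFinset]
      rfl
    have hq : ((Nat.card k : ℕ) : ZMod 2) = 1 := card_odd (by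
      intro h
      apply h6
      have : (6 : k) = 2 * 3 := by norm_num
      rw [this, h, zero_mul])
    refine (Q7.UC.bound2 h6 hE hP hD hfin.toFinset hB s hs G hG).trans ?_
    exact Nat.add_le_add_left (sum_le hq a b _ _ hB) _

end Pool.Agent.Results.MP_48b749_nt.TwistsOverConstantExtensions
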