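import Pool.Agent.Q59.TD.Main

/-!
# An upper bound for the order of vanishing by the algebra of the points of order two

Let `K` be the function field of a curve over the field `k` with `q` elements, of characteristic at least `5`, and
`E : y ^ 2 = x ^ 3 + a x + b` an elliptic curve over `K`. The cubic algebra `K[x] / (x ^ 3 + a x + b)` is the product of the
fields `L i`. We bound the order of vanishing of `L(T, E)` at `1 / q`, the analytic rank, by a number `twoOrder` which only
depends on the zeta functions of `K` and of the `L i` modulo two and on the places of bad reduction: the order of the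
zero `1` of the reduction of `L(T, E)` modulo two is *equal* to `twoOrder`. If the class numbers of the `L i` are odd there
are only the contributions of the places of bad reduction. So an analytic analogue of the bound for the rank by a
`2`-descent holds, although nothing is assumed on the Tate-Shafarevich group; if `twoOrder` is not positive, `L(T, E)` does
not vanish at `1 / q` and the rank conjecture holds for `E` (the rank is zero). If the points of order two are rational, the
order is at most `2 μ - 4 + ∑ f_v 2 ^ (v_2 (deg v))`, `f_v` the exponents of the conductor and `μ` the multiplicity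
of the zero `1` of the numerator of the zeta function of `K` modulo two.
-/

set_option autoImplicit false
set_option linter.all false
set_option maxHeartbeats 4000000

open Polynomial Pool.Agent.H123R3.ZT Pool.Agent.W343.BSD Pool.Agent.W313.Gr Pool.Agent.W313.Hyp

namespace Pool.Agent.Results.MP_48b749_nt.TwoDivisionBound

/-- Let `E : y ^ 2 = x ^ 3 + a x + b` be an elliptic curve over `K` and let `K[x] / (x ^ 3 + a x + b)` be the product of the
fields `L i`; let `P` and `PL i` be the numerators of the zeta functions of `K` and `L i`.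

1. If `L(T, E)` is the polynomial `G`, the order of the zero `1` of `G` modulo two is `twoOrder`.
2. If `L(T, E)` is a polynomial with a zero of order `r` at `1 / q`, then `r ≤ twoOrder`; so `r` is bounded by the
multiplicities of the zero `1` of the `PL i` modulo two and a sum of local terms at the places of bad reduction; these
multiplicities are zero if the class numbers of the `L i` are odd.
3. If `twoOrder ≤ 0`, then `r = 0`, and the rank of `E(K)` is `r` if it is at most `r`.
4. If `x ^ 3 + a x + b` is a product of linear factors, then `r + 4 ≤ 2 μ + condSum`. -/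
theorem result (k K : Type) [Field k] [Finite k] [Field K] [Algebra k K] (h6 : (6 : k) ≠ 0)
    (hK : IsCurveField k K) (a b : K) (hE : 4 * a ^ 3 + 27 * b ^ 2 ≠ 0) :
    (∀ (ι : Type) [Fintype ι] (L : ι → Type) [∀ i, Field (L i)] [∀ i, Algebra k (L i)]
      [∀ i, Algebra K (L i)] [∀ i, IsScalarTower k K (L i)] (θ : ∀ i, L i), IsTwoDivision a b θ →
      ∃ (P : ℤ[X]) (PL : ι → ℤ[X]), IsNumerator k K P ∧ (∀ i, IsNumerator k (L i) (PL i)) ∧
        (∀ G : ℤ[X], S.Lfun k a b = (G : PowerSeries ℤ) →
          (muTwo G : ℤ) = twoOrder k a b L P PL) ∧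
        (∀ r : ℕ, HasOrder k a b r → (r : ℤ) ≤ twoOrder k a b L P PL ∧
          r + muTwo P + 2 * ∑ i, twoPart (constDeg k (L i)) ≤
            2 + ∑ i, muTwo (PL i) + ∑ᶠ v : FF.Place k K, S.localTerm v a b * twoPart (S.deg v)) ∧
        (∀ i, Odd (S.classNumber k (L i)) → muTwo (PL i) = 0) ∧
        (twoOrder k a b L P PL ≤ 0 → ∀ r : ℕ, HasOrder k a b r →
          r = 0 ∧ (rank a b ≤ r → rank a b = r))) ∧
    ∀ e : Fin 3 → K, ∏ i, (X - C (e i)) = X ^ 3 + C a * X + C b →
      ∃ P : ℤ[X], IsNumerator k K P ∧
        ∀ r : ℕ, HasOrder k a b r → r + 4 ≤ 2 * muTwo P + condSum k a b := by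
  have hFF : FF.IsFF k K := ⟨hK.essFiniteType, hK.trdeg_eq_one⟩
  have hc := constDeg_eq_one hK.algClosed
  obtain ⟨P, hP, hP1⟩ := exists_num_rel k K
  refine ⟨?_, ?_⟩
  · intro ι _ L _ _ _ _ θ hθ
    have hF := isFamily_of_prod hE hθ.1 hθ.2
    have hfd := hF.fd
    have hFFL : ∀ i, FF.IsFF k (L i) := fun i => isFF_of_finite (K := K)
    choose PL hPL hPL1 using fun i => exists_num_rel k (L i)
    refine ⟨P, PL, ⟨(S.isZetaNum_iff P).2 hP, hP1.trans (by rw [S.classNumber_eq])⟩,
      fun i => ⟨(S.isZetaNum_iff _).2 (hPL i), (hPL1 i).trans (by rw [S.classNumber_eq])⟩,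
      fun G hG => (Pool.Agent.Q59.TD.poly_order h6 hE hF hP hc hPL hG).2,
      fun r hr => ⟨Pool.Agent.Q59.TD.order_le h6 hE hF hP hc hPL hr, ?_⟩,
      fun i hi => ?_, fun hle r hr => ?_⟩
    · obtain ⟨G, hG⟩ := Pool.Agent.Q59.TD.vanishes_of_order hE hr
      rw [S.lfun_eq hE] at hG
      have h := main_bound h6 hE hF hP hc hPL r G hG
      have h1 : ∀ v : FF.Place k K, S.localTerm v a b * twoPart (S.deg v) =
          localTerm v a b * twoPart v.deg := fun v => by rw [S.localTerm_eq v hE, S.deg_eq]
      simp only [h1]
      exact h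
    · refine muTwo_odd (hPL1 i) ?_
      rw [← S.classNumber_eq]
      exact hi
    · have h := Pool.Agent.Q59.TD.order_le h6 hE hF hP hc hPL hr
      have hr0 : r = 0 := by omega
      subst hr0
      exact ⟨rfl, fun h1 => le_antisymm h1 (by simp)⟩
  · intro e he
    have hF := full_family hE he
    refine ⟨P, ⟨(S.isZetaNum_iff P).2 hP, hP1.trans (by rw [S.classNumber_eq])⟩, fun r hr => ?_⟩
    have h := Pool.Agent.Q59.TD.order_le (L := fun _ : Fin 3 => K) (PL := fun _ => P) h6 hE hF hP hc
      (fun _ => hP) hr
    rw [full_order hE hc] at h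
    omega

end Pool.Agent.Results.MP_48b749_nt.TwoDivisionBound
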